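import Pool.Agent.Helper82.GC.Fin2

set_option autoImplicit false

namespace Pool.Agent.Results.MP_3a0321_gt.Determination

open MeasureTheory

/-- The standard Gaussian measure of a subset `A` of a finite dimensional Euclidean space `E`:
the integral over `A` of the density `(2π)^(-dim E / 2) e^(-|x|²/2)`. -/
noncomputable def gaussian {E : Type*} [NormedAddCommGroup E] [InnerProductSpace ℝ E]
    [FiniteDimensional ℝ E] [MeasurableSpace E] [BorelSpace E] (A : Set E) : ℝ :=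
  ∫ x in A, (2 * Real.pi) ^ (-(Module.finrank ℝ E : ℝ) / 2) * Real.exp (-‖x‖ ^ 2 / 2)

/-- The cube `[-r, r]^k`. -/
def cube (k : ℕ) (r : ℝ) : Set (EuclideanSpace ℝ (Fin k)) := {x | ∀ i, |x i| ≤ r}

/-- The Gaussian measure `γ_{n-1}([-r, r]^n ∩ θ^⊥)`, computed inside the hyperplane `θ^⊥`. -/
noncomputable def sectionMeasure (n : ℕ) (r : ℝ) (θ : EuclideanSpace ℝ (Fin n)) : ℝ :=
  gaussian {x : ((ℝ ∙ θ)ᗮ : Submodule ℝ (EuclideanSpace ℝ (Fin n))) |
    (x : EuclideanSpace ℝ (Fin n)) ∈ cube n r}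

/-- The set of the values of `θ ↦ γ_{n-1}([-r, r]^n ∩ θ^⊥)` on the unit sphere. -/
def values (n : ℕ) (r : ℝ) : Set ℝ :=
  {g : ℝ | ∃ θ : EuclideanSpace ℝ (Fin n), ‖θ‖ = 1 ∧ sectionMeasure n r θ = g}

/-- `M_n(r)`: the supremum of `γ_{n-1}([-r, r]^n ∩ θ^⊥)` over the unit vectors `θ`. -/
noncomputable def M (n : ℕ) (r : ℝ) : ℝ := sSup (values n r)

/-- The full answer to Q1 (and to Q2 for `r = 1`).
(1) For every `n ≥ 3`, `M_n(1)` is the greatest value of a section, and it is strictly smaller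
than the known upper bound.
(2) For `n = 3, 4, 5`, `M_n(1) = γ_1([-√2, √2]) γ_{n-2}([-1, 1]^{n-2})`, and the directions at
which it is attained are exactly those unit vectors with two coordinates of absolute value `1/√2`.
(3) For `n ≥ 6`, `M_n(1)` is given by an explicit integral, and the directions at which it is
attained are exactly the main diagonals, `|θ_i| = 1/√n` for all `i`. -/
theorem result :
    (∀ n : ℕ, 3 ≤ n → IsGreatest (values n 1) (M n 1) ∧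
      M n 1 < gaussian (cube (n - 1) (Real.sqrt ((n : ℝ) / ((n : ℝ) - 1))))) ∧
    (∀ n : ℕ, 3 ≤ n → n ≤ 5 →
      M n 1 = gaussian (cube 1 (Real.sqrt 2)) * gaussian (cube (n - 2) 1) ∧
      ∀ θ : EuclideanSpace ℝ (Fin n), ‖θ‖ = 1 →
        (sectionMeasure n 1 θ = M n 1 ↔
          ∃ i j, i ≠ j ∧ |θ i| = 1 / Real.sqrt 2 ∧ |θ j| = 1 / Real.sqrt 2)) ∧
    (∀ n : ℕ, 6 ≤ n →
      M n 1 = (2 * Real.pi) ^ (-((n : ℝ) + 1) / 2) *
        ∫ t : ℝ, (∫ x in (-1 : ℝ)..1, Real.cos (t * x / Real.sqrt n) * Real.exp (-x ^ 2 / 2)) ^ n ∧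
      ∀ θ : EuclideanSpace ℝ (Fin n), ‖θ‖ = 1 →
        (sectionMeasure n 1 θ = M n 1 ↔ ∀ i, |θ i| = 1 / Real.sqrt n)) := by
  have hsec : ∀ (n : ℕ) (θ : EuclideanSpace ℝ (Fin n)),
      sectionMeasure n 1 θ = Helper82.GC.sec n 1 θ := fun n θ => rfl
  -- the maxima
  have h6 : ∀ n : ℕ, 6 ≤ n → IsGreatest (values n 1) (Helper82.GC.sec n 1 (Helper82.GC.diagonal n)) := by
    intro n hn
    refine ⟨⟨_, Helper82.GC.diagonal_norm (by omega), rfl⟩, ?_⟩
    rintro g ⟨θ, hθ, rfl⟩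
    exact (Helper82.GC.main_six hn θ hθ).1
  have h5 : ∀ n : ℕ, 3 ≤ n → n ≤ 5 → IsGreatest (values n 1)
      ((2 * Real.pi) ^ (-((n : ℝ) + 1) / 2) * Helper82.GC.Zr 1 ^ n *
        (Real.sqrt 2 * Helper82.GC.Ip 2)) := by
    intro n hn hn5
    obtain ⟨k, rfl⟩ : ∃ k, n = k + 2 := ⟨n - 2, by omega⟩
    refine ⟨⟨Helper82.GC.twoDir k, Helper82.GC.twoDir_norm k, ?_⟩, ?_⟩
    · rw [hsec]
      exact (Helper82.GC.main_five (by omega) hn5 _ (Helper82.GC.twoDir_norm k)).2.2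
        (Helper82.GC.twoDir_spec k)
    · rintro g ⟨θ, hθ, rfl⟩
      exact (Helper82.GC.main_five (by omega) hn5 θ hθ).1
  have hM6 : ∀ n : ℕ, 6 ≤ n → M n 1 = Helper82.GC.sec n 1 (Helper82.GC.diagonal n) :=
    fun n hn => (h6 n hn).csSup_eq
  have hM5 : ∀ n : ℕ, 3 ≤ n → n ≤ 5 → M n 1 = (2 * Real.pi) ^ (-((n : ℝ) + 1) / 2) *
      Helper82.GC.Zr 1 ^ n * (Real.sqrt 2 * Helper82.GC.Ip 2) :=
    fun n hn hn5 => (h5 n hn hn5).csSup_eq
  have hG : ∀ n : ℕ, 3 ≤ n → IsGreatest (values n 1) (M n 1) := by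
    intro n hn
    by_cases h : n ≤ 5
    · rw [hM5 n hn h]
      exact h5 n hn h
    · rw [hM6 n (by omega)]
      exact h6 n (by omega)
  refine ⟨fun n hn => ⟨hG n hn, ?_⟩, fun n hn hn5 => ⟨?_, ?_⟩, fun n hn => ⟨?_, ?_⟩⟩
  · obtain ⟨k, rfl⟩ : ∃ k, n = k + 1 := ⟨n - 1, by omega⟩
    have h1 : M (k + 1) 1 ≤ (Helper82.GC.Zr 1 / Real.sqrt (2 * Real.pi)) ^ (k + 1) /
        Real.sqrt (Helper82.GC.vr 1) := by
      apply csSup_le
      · exact ⟨_, Helper82.GC.diagonal (k + 1), Helper82.GC.diagonal_norm (by omega), rfl⟩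
      · rintro g ⟨θ, hθ, rfl⟩
        exact Helper82.GC.sec_le k θ hθ
    have h2 := Helper82.GC.known_bound_gt k (by omega)
    have hk : (0 : ℝ) < k := by
      have : 0 < k := by omega
      exact_mod_cast this
    have h3 := Helper82.GC.gam_cube k (r := Real.sqrt (((k : ℝ) + 1) / k))
      (Real.sqrt_pos.2 (by positivity))
    have h4 : gaussian (cube (k + 1 - 1)
        (Real.sqrt (((k + 1 : ℕ) : ℝ) / (((k + 1 : ℕ) : ℝ) - 1)))) =
        (Helper82.GC.Zr (Real.sqrt (((k : ℝ) + 1) / k)) / Real.sqrt (2 * Real.pi)) ^ k := by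
      rw [← h3]
      have e : ((k + 1 : ℕ) : ℝ) / (((k + 1 : ℕ) : ℝ) - 1) = ((k : ℝ) + 1) / k := by
        push_cast
        congr 1
        ring
      rw [e]
      rfl
    rw [h4]
    exact h1.trans_lt h2
  · rw [hM5 n hn hn5]
    obtain ⟨k, rfl⟩ : ∃ k, n = k + 2 := ⟨n - 2, by omega⟩
    rw [Helper82.GC.pair_value, ← Helper82.GC.gam_cube 1 (Real.sqrt_pos.2 (by norm_num)),
      ← Helper82.GC.gam_cube k one_pos]
    rfl
  · intro θ hθ
    rw [hM5 n hn hn5]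
    exact (Helper82.GC.main_five (by omega) hn5 θ hθ).2
  · rw [hM6 n hn]
    exact Helper82.GC.diag_value (by omega)
  · intro θ hθ
    rw [hM6 n hn]
    exact (Helper82.GC.main_six hn θ hθ).2

end Pool.Agent.Results.MP_3a0321_gt.Determination
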