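import Pool.Agent.CG3.Final2
import Pool.Agent.CG3.F1

set_option autoImplicit false

open MeasureTheory ProbabilityTheory

namespace Pool.Agent.Results.MP_3a0321_gt.MaxGaussianSection

/-- `γ_{n-1}(r B_∞^n ∩ θ^⊥)`: the standard Gaussian measure, computed inside the hyperplane
`θ^⊥ ⊆ ℝ^n`, of the section of the cube `[-r,r]^n`. -/
noncomputable def gammaSection {n : ℕ} (r : ℝ) (θ : EuclideanSpace ℝ (Fin n)) : ℝ :=
  (stdGaussian ((ℝ ∙ θ)ᗮ : Submodule ℝ (EuclideanSpace ℝ (Fin n)))).real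
    {x | ∀ i, |(x : EuclideanSpace ℝ (Fin n)) i| ≤ r}

/-- The set of all values `γ_{n-1}(r B_∞^n ∩ θ^⊥)`, `θ` a unit vector. -/
def sectionValues (n : ℕ) (r : ℝ) : Set ℝ :=
  {s | ∃ θ : EuclideanSpace ℝ (Fin n), ‖θ‖ = 1 ∧ s = gammaSection r θ}

/-- `M_n(r)`. -/
noncomputable def maxSection (n : ℕ) (r : ℝ) : ℝ := sSup (sectionValues n r)

/-- The unit vector `(1,…,1)/√n`. -/
noncomputable def mainDiagonal (n : ℕ) : EuclideanSpace ℝ (Fin n) :=
  WithLp.toLp 2 (fun _ => 1 / √n)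

/-- The unit vector `(1,1,0,…,0)/√2`. -/
noncomputable def twoDiagonal (n : ℕ) : EuclideanSpace ℝ (Fin n) :=
  WithLp.toLp 2 (fun i => if (i : ℕ) < 2 then 1 / √2 else 0)

/-- The known upper bound `γ_{n-1}(√(n/(n-1)) B_∞^{n-1})`. -/
noncomputable def knownBound (n : ℕ) : ℝ :=
  (stdGaussian (EuclideanSpace ℝ (Fin (n - 1)))).real {x | ∀ i, |x i| ≤ √((n : ℝ) / (n - 1))}

theorem cube_measure (m : ℕ) (t : ℝ) :
    (stdGaussian (EuclideanSpace ℝ (Fin m))).real {x | ∀ i, |x i| ≤ t} =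
      (gaussianReal 0 1).real (Set.Icc (-t) t) ^ m := by
  rw [← map_pi_eq_stdGaussian, measureReal_def, Measure.map_apply (by fun_prop)]
  · have e : (WithLp.toLp 2 : (Fin m → ℝ) → EuclideanSpace ℝ (Fin m)) ⁻¹'
        {x : EuclideanSpace ℝ (Fin m) | ∀ i, |x i| ≤ t} = Set.univ.pi (fun _ => Set.Icc (-t) t) := by
      ext x
      simp only [Set.mem_preimage, Set.mem_ofPred_eq, abs_le, Set.mem_pi, Set.mem_univ,
        Set.mem_Icc, forall_true_left]
    rw [e, Measure.pi_pi, Finset.prod_const, Finset.card_univ, Fintype.card_fin, ENNReal.toReal_pow]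
    rfl
  · have e : {x : EuclideanSpace ℝ (Fin m) | ∀ i, |x i| ≤ t} =
        ⋂ i, {x : EuclideanSpace ℝ (Fin m) | |x i| ≤ t} := by
      ext x; simp
    rw [e]
    refine MeasurableSet.iInter (fun i => ?_)
    exact measurableSet_le (by fun_prop) measurable_const

theorem gammaSection_one {n : ℕ} (θ : EuclideanSpace ℝ (Fin n)) :
    gammaSection 1 θ = CG3.secG θ := rfl

theorem isGreatest_of (n : ℕ) (θ₀ : EuclideanSpace ℝ (Fin n)) (h0 : ‖θ₀‖ = 1)
    (h : ∀ θ : EuclideanSpace ℝ (Fin n), ‖θ‖ = 1 → CG3.secG θ ≤ CG3.secG θ₀) :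
    IsGreatest (sectionValues n 1) (maxSection n 1) ∧ maxSection n 1 = gammaSection 1 θ₀ := by
  have h1 : IsGreatest (sectionValues n 1) (gammaSection 1 θ₀) := by
    refine ⟨⟨θ₀, h0, rfl⟩, ?_⟩
    rintro s ⟨θ, hθ, rfl⟩
    exact h θ hθ
  have h2 : maxSection n 1 = gammaSection 1 θ₀ := h1.csSup_eq
  exact ⟨h2 ▸ h1, h2⟩

theorem pG_phi (t : ℝ) : CG3.pG * CG3.phi t =
    1 / √(2 * Real.pi) * ∫ x in (-1 : ℝ)..1, Real.exp (-(x ^ 2) / 2) * Real.cos (t * x) := by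
  unfold CG3.pG CG3.phi CG3.w
  have := CG3.m0_pos
  have hpi : 0 < √(2 * Real.pi) := Real.sqrt_pos.mpr (by positivity)
  generalize (∫ x in (-1 : ℝ)..1, Real.exp (-(x ^ 2) / 2) * Real.cos (t * x)) = I
  field_simp

theorem two_value (n : ℕ) (hn : 2 ≤ n) : CG3.secG (CG3.twoDiag n) =
    (gaussianReal 0 1).real (Set.Icc (-1) 1) ^ (n - 2) *
      (gaussianReal 0 1).real (Set.Icc (-√2) √2) := by
  rw [CG3.secG_twoDiag n hn, CG3.gauss_one, CG3.gauss_sqrt_two]
  obtain ⟨m, rfl⟩ : ∃ m, n = m + 2 := ⟨n - 2, by omega⟩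
  simp only [Nat.add_sub_cancel]
  unfold CG3.F2 CG3.pG
  have hm := CG3.m0_pos
  have h2 : √(2 * Real.pi) = √2 * √Real.pi := Real.sqrt_mul (by norm_num) _
  have hs2 : 0 < √(2 : ℝ) := by positivity
  have hsp : 0 < √Real.pi := Real.sqrt_pos.mpr Real.pi_pos
  have e1 : √(2 : ℝ) ^ 2 = 2 := Real.sq_sqrt (by norm_num)
  have e2 : √Real.pi ^ 2 = Real.pi := Real.sq_sqrt Real.pi_pos.le
  rw [h2, pow_add, div_pow (a := CG3.m0) (n := 2), mul_pow, e1, e2]
  field_simp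

theorem upper_known (n : ℕ) (hn : 3 ≤ n) (θ : EuclideanSpace ℝ (Fin n)) (hθ : ‖θ‖ = 1) :
    CG3.secG θ < knownBound n := by
  have hNP : √(2 * Real.pi / (1 - CG3.cc)) = √(2 * Real.pi) / √(1 - CG3.cc) :=
    Real.sqrt_div (by positivity) _
  have hcc : 0 < 1 - CG3.cc := by have := CG3.cc_hi; linarith
  have hpi : 0 < √(2 * Real.pi) := Real.sqrt_pos.mpr (by positivity)
  have hp := CG3.pG_pos
  have key : CG3.secG θ ≤ CG3.pG ^ n / √(2 * Real.pi) * √(2 * Real.pi / (1 - CG3.cc)) := by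
    rcases Nat.lt_or_ge n 6 with h6 | h6
    · refine (CG3.upper5 n (by omega) (by omega) θ hθ).trans ?_
      rw [CG3.secG_twoDiag n (by omega)]
      refine mul_le_mul_of_nonneg_left ?_ (by positivity)
      refine CG3.F2_le.trans ?_
      rw [Real.le_sqrt (by norm_num) (by positivity), le_div_iff₀ hcc]
      have h1 := Real.pi_gt_d6
      have h2 := CG3.cc_lo
      nlinarith
    · refine (CG3.upper6 n h6 θ hθ).trans ?_
      rw [CG3.secG_mainDiag n (by omega)]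
      refine mul_le_mul_of_nonneg_left ?_ (by positivity)
      have hn0 : (0 : ℝ) < n := by exact_mod_cast (by omega : 0 < n)
      have hn6 : (6 : ℝ) ≤ n := by exact_mod_cast h6
      have h1 : ∫ ξ : ℝ, CG3.phi (ξ / √n) ^ n ≤ ∫ ξ : ℝ, |CG3.phi (ξ / √n)| ^ (n : ℝ) := by
        refine (le_abs_self _).trans ((abs_integral_le_integral_abs).trans (le_of_eq ?_))
        congr 1
        ext ξ
        rw [Real.rpow_natCast, abs_pow]
      have h2 : ∫ ξ : ℝ, |CG3.phi (ξ / √n)| ^ (n : ℝ) = √n * CG3.Is n := by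
        rw [Measure.integral_comp_div (fun t => |CG3.phi t| ^ (n : ℝ)) (√(n : ℝ)),
          abs_of_pos (Real.sqrt_pos.mpr hn0), smul_eq_mul]
        rfl
      have h3 := CG3.Hs_NP (1 / n) (by positivity) (by
        rw [div_le_div_iff₀ hn0 (by norm_num)]; linarith)
      have e1 : (1 / (n : ℝ)) ^ (-(1 / 2) : ℝ) = √n := by
        rw [Real.sqrt_eq_rpow, one_div, Real.inv_rpow hn0.le, Real.rpow_neg hn0.le, inv_inv]
      have e2 : (1 / (1 / (n : ℝ))) = n := by simp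
      rw [e1, e2] at h3
      exact (h1.trans (le_of_eq h2)).trans h3
  have e : CG3.pG ^ n / √(2 * Real.pi) * √(2 * Real.pi / (1 - CG3.cc)) =
      (CG3.m0 / √(2 * Real.pi)) ^ n / √(1 - CG3.cc) := by
    rw [hNP]
    change CG3.pG ^ n / √(2 * Real.pi) * (√(2 * Real.pi) / √(1 - CG3.cc)) =
      CG3.pG ^ n / √(1 - CG3.cc)
    field_simp
  rw [e] at key
  refine key.trans_lt ?_
  unfold knownBound
  rw [cube_measure]
  exact CG3.below_known CG3.m0_lo CG3.m0_hi CG3.cc_lo CG3.cc_hi n hn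

/-- Full determination of `M_n(1)` for all `n ≥ 3`. -/
theorem result :
    (∀ n : ℕ, 3 ≤ n → n ≤ 5 →
      IsGreatest (sectionValues n 1) (maxSection n 1) ∧
      maxSection n 1 = gammaSection 1 (twoDiagonal n) ∧
      maxSection n 1 = (gaussianReal 0 1).real (Set.Icc (-1) 1) ^ (n - 2) *
        (gaussianReal 0 1).real (Set.Icc (-√2) √2)) ∧
    (∀ n : ℕ, 6 ≤ n →
      IsGreatest (sectionValues n 1) (maxSection n 1) ∧
      maxSection n 1 = gammaSection 1 (mainDiagonal n) ∧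
      maxSection n 1 = 1 / √(2 * Real.pi) * ∫ ξ : ℝ, (1 / √(2 * Real.pi) *
        ∫ x in (-1 : ℝ)..1, Real.exp (-(x ^ 2) / 2) * Real.cos (ξ / √n * x)) ^ n) ∧
    (∀ n : ℕ, 3 ≤ n → maxSection n 1 < knownBound n) := by
  have h5 : ∀ n : ℕ, 3 ≤ n → n ≤ 5 → IsGreatest (sectionValues n 1) (maxSection n 1) ∧
      maxSection n 1 = gammaSection 1 (twoDiagonal n) := fun n hn hn5 =>
    isGreatest_of n (twoDiagonal n) (CG3.twoDiag_norm n (by omega))
      (CG3.upper5 n (by omega) hn5)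
  have h6 : ∀ n : ℕ, 6 ≤ n → IsGreatest (sectionValues n 1) (maxSection n 1) ∧
      maxSection n 1 = gammaSection 1 (mainDiagonal n) := fun n hn =>
    isGreatest_of n (mainDiagonal n) (CG3.mainDiag_norm n (by omega)) (CG3.upper6 n hn)
  refine ⟨fun n hn hn5 => ⟨(h5 n hn hn5).1, (h5 n hn hn5).2, ?_⟩,
    fun n hn => ⟨(h6 n hn).1, (h6 n hn).2, ?_⟩, fun n hn => ?_⟩
  · rw [(h5 n hn hn5).2]
    exact two_value n (by omega)
  · rw [(h6 n hn).2]
    change CG3.secG (CG3.mainDiag n) = _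
    rw [CG3.secG_mainDiag n (by omega), div_mul_eq_mul_div, mul_div_assoc, ← one_div_mul_eq_div,
      mul_left_comm, ← integral_const_mul]
    congr 2
    ext ξ
    rw [← mul_pow, pG_phi]
  · rcases Nat.lt_or_ge n 6 with h | h
    · rw [(h5 n hn (by omega)).2]
      exact upper_known n hn _ (CG3.twoDiag_norm n (by omega))
    · rw [(h6 n h).2]
      exact upper_known n hn _ (CG3.mainDiag_norm n (by omega))

end Pool.Agent.Results.MP_3a0321_gt.MaxGaussianSection
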